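import Pool.Agent.W851.BE.Stm

/-! Project BE, part SEP: separation of the points of type A / type B on a branch. -/

set_option autoImplicit false
set_option maxHeartbeats 4000000

open Polynomial Topology Filter MeasureTheory

namespace Pool.Agent.W85.BE.Sep
open Pool.Agent.W95.BK Pool.Agent.W851.BE

universe u

theorem eps_exists (E : Finset ℝ) (s ρ : ℝ) (hρ : 0 < ρ) :
    ∃ ε : ℝ, 0 < ε ∧ ε ≤ ρ ∧ ∀ s' ∈ E, s < s' → ε ≤ s' - s := by
  by_cases h : (E.filter (fun s' => s < s')).Nonempty
  · obtain ⟨m, hm, hmin⟩ := Finset.exists_min_image (E.filter (fun s' => s < s')) id h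
    rw [Finset.mem_filter] at hm
    refine ⟨min ρ (m - s), lt_min hρ (by linarith [hm.2]), min_le_left _ _, ?_⟩
    intro s' hs' hss
    have h1 := hmin s' (Finset.mem_filter.2 ⟨hs', hss⟩)
    have h2 : m ≤ s' := h1
    have h3 : min ρ (m - s) ≤ m - s := min_le_right _ _
    linarith
  · refine ⟨ρ, hρ, le_rfl, ?_⟩
    intro s' hs' hss
    exact absurd ⟨s', Finset.mem_filter.2 ⟨hs', hss⟩⟩ h

theorem main : S_ISOM.{u} → S_SEP.{u} := by
  intro hI K _ _ _ f b E δ ρ hδ hδρ hE hAB
  have hρ : 0 < ρ := lt_of_lt_of_le hδ hδρ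
  rcases hAB with hA | hB
  · -- type A
    have key : ∀ s : ℝ, s ∈ E → ∃ t, s < t ∧ t ≤ s + ρ ∧ (∀ s' ∈ E, s < s' → t < s') ∧
        localDeg f (zt b t) = 1 := by
      intro s hs
      obtain ⟨ε, hε, hερ, hεE⟩ := eps_exists E s ρ hρ
      obtain ⟨t, h1, h2, _, h4⟩ := (hA s hs).2.2 ε hε
      refine ⟨t, h1, by linarith, ?_, h4⟩
      intro s' hs' hss
      have := hεE s' hs' hss
      linarith
    choose! T hT1 hT2 hT3 hT4 using key
    have hmono : ∀ s ∈ E, ∀ s' ∈ E, s < s' → T s < T s' := by
      intro s hs s' hs' hss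
      exact (hT3 s hs s' hs' hss).trans (hT1 s' hs')
    refine ⟨E.image T, ?_, ?_, ?_, ?_⟩
    · apply Finset.card_image_of_injOn
      intro s hs s' hs' he
      rcases lt_trichotomy s s' with h | h | h
      · exact absurd he (hmono s hs s' hs' h).ne
      · exact h
      · exact absurd he (hmono s' hs' s hs h).ne'
    · intro t ht
      obtain ⟨s, hs, rfl⟩ := Finset.mem_image.1 ht
      have h1 := hT1 s hs
      have h2 := hT2 s hs
      have h3 := hE s hs
      constructor
      · linarith
      · linarith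
    · intro t ht
      obtain ⟨s, hs, rfl⟩ := Finset.mem_image.1 ht
      have h1 := hT1 s hs
      have h3 := hE s hs
      exact ⟨by linarith, hT4 s hs⟩
    · intro t ht t' ht' htt
      obtain ⟨s, hs, rfl⟩ := Finset.mem_image.1 ht
      obtain ⟨s', hs', rfl⟩ := Finset.mem_image.1 ht'
      have hss : s < s' := by
        by_contra hcon
        push Not at hcon
        rcases lt_or_eq_of_le hcon with h | h
        · have := hmono s' hs' s hs h
          linarith
        · rw [h] at htt
          exact lt_irrefl _ htt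
      refine ⟨s', hT3 s hs s' hs' hss, hT1 s' hs', ?_⟩
      have := (hA s' hs').2.1
      omega
  · -- type B
    refine ⟨E, rfl, ?_, ?_, ?_⟩
    · intro t ht
      have := hE t ht
      exact ⟨this.1, by linarith [this.2]⟩
    · intro t ht
      exact ⟨lt_of_lt_of_le hδ (hE t ht).1, (hB t ht).2.1⟩
    · intro s hs s' hs' hss
      by_contra hcon
      push Not at hcon
      obtain ⟨t, h1, h2, h3⟩ := (hB s hs).2.2 (s' - s) (by linarith)
      apply h3
      apply hI K f b s s' (lt_of_lt_of_le hδ (hE s hs).1) hss ?_ (hB s hs).1 (hB s' hs').1 t h1.le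
        (by linarith)
      intro u hu hu'
      rcases lt_or_eq_of_le hu with h | h
      · rcases lt_or_eq_of_le hu' with h' | h'
        · exact hcon u h h'
        · rw [h']
          exact (hB s' hs').2.1
      · rw [← h]
        exact (hB s hs).2.1

end Pool.Agent.W85.BE.Sep
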